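import Pool.Agent.H19.KEW.Dvr

/-!
# Smooth schemes over a discrete valuation ring: local rings are domains, flatness
-/

namespace Pool.Agent.H19.KEW

open AlgebraicGeometry CategoryTheory Pool.Agent.H12.KG Pool.Agent.H15.KEW IsLocalRing

universe u

variable {A : Type u} [CommRing A] {X : Scheme.{u}}

theorem stalk_domain [IsDomain A] [IsDiscreteValuationRing A]
    (f : X ⟶ Spec (CommRingCat.of A)) [Smooth f] (x : X) : IsDomain (X.presheaf.stalk x) := by
  have h := stalk_regular f x
  exact reg_domain _ _ IsRegularLocalRing.spanFinrank_maximalIdeal.symm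

theorem flat_stA (f : X ⟶ Spec (CommRingCat.of A)) [Flat f] (x : X) : (stA f x).Flat := by
  obtain ⟨V, hV, hxV, -⟩ := exists_isAffineOpen_mem_and_subset (X := X) (U := ⊤) (x := x) trivial
  have h1 : (f.appLE ⊤ V le_top).hom.Flat := f.flat_appLE (isAffineOpen_top _) hV _
  have h2 : (X.presheaf.germ V x hxV).hom.Flat := by
    have := hV.isLocalization_stalk ⟨x, hxV⟩
    let _ := TopCat.Presheaf.algebra_section_stalk X.presheaf ⟨x, hxV⟩
    have h3 : Module.Flat Γ(X, V) (X.presheaf.stalk x) :=
      IsLocalization.flat (X.presheaf.stalk x) (hV.primeIdealOf ⟨x, hxV⟩).asIdeal.primeCompl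
    exact RingHom.flat_algebraMap_iff.2 h3
  have h4 : ((Scheme.ΓSpecIso (CommRingCat.of A)).inv).hom.Flat :=
    RingHom.Flat.of_bijective (ConcreteCategory.bijective_of_isIso _)
  have h5 : stA f x = ((X.presheaf.germ V x hxV).hom.comp (f.appLE ⊤ V le_top).hom).comp
      ((Scheme.ΓSpecIso (CommRingCat.of A)).inv).hom := by
    unfold stA
    have h6 : f.appTop ≫ X.presheaf.germ ⊤ x trivial
        = f.appLE ⊤ V le_top ≫ X.presheaf.germ V x hxV := by
      rw [Scheme.Hom.appLE, Category.assoc, TopCat.Presheaf.germ_res]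
      rfl
    rw [h6]
    rfl
  rw [h5]
  exact h4.comp (h1.comp h2)

theorem stA_ne_zero [IsDomain A] (f : X ⟶ Spec (CommRingCat.of A)) [Flat f] (x : X) {π : A}
    (hπ : π ≠ 0) : stA f x π ≠ 0 := by
  have h1 := flat_stA f x
  let _ := (stA f x).toAlgebra
  have h2 : Module.Flat A (X.presheaf.stalk x) := h1
  have h3 : Module.IsTorsionFree A (X.presheaf.stalk x) := inferInstance
  intro h
  have h4 : π • (1 : X.presheaf.stalk x) = π • (0 : X.presheaf.stalk x) := by
    rw [smul_zero, Algebra.smul_def, mul_one]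
    exact h
  exact one_ne_zero (h3.isSMulRegular (IsRegular.of_ne_zero hπ) h4)

/-- A point of codimension zero is not in the special fibre. -/
theorem not_sp_of_coheight [IsDomain A] [IsDiscreteValuationRing A]
    (f : X ⟶ Spec (CommRingCat.of A)) [Smooth f] {π : A} (hπ : π ≠ 0) (x : X)
    (hx : Order.coheight x = 0) : ¬ Sp f π x := by
  have h1 := stalk_regular f x
  have h2 : ringKrullDim (X.presheaf.stalk x) = 0 := by
    rw [ringKrullDim_stalk_eq_coheight, hx]
    rfl
  have h3 := IsRegularLocalRing.spanFinrank_maximalIdeal (R := X.presheaf.stalk x)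
  rw [h2] at h3
  have h4 : (maximalIdeal (X.presheaf.stalk x)).spanFinrank = 0 := by exact_mod_cast h3
  have h5 := (Submodule.spanFinrank_eq_zero_iff_eq_bot
    (maximalIdeal (X.presheaf.stalk x)).fg_of_isNoetherianRing).1 h4
  have h6 : IsUnit (stA f x π) := by
    by_contra h
    have h7 : stA f x π ∈ maximalIdeal (X.presheaf.stalk x) := (mem_maximalIdeal _).2 h
    rw [h5] at h7
    exact stA_ne_zero f x hπ h7
  exact not_not.2 h6

end Pool.Agent.H19.KEW
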