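import Pool.Agent.H19.KEW.Reg

/-!
# One-dimensional regular quotients of regular local rings (for project KEW)
-/

namespace Pool.Agent.H19.KEW

open IsLocalRing

universe u

theorem height_comap_add_one (R : Type u) [CommRing R] [IsDomain R] {x : R} (hx : x ≠ 0)
    (P : Ideal (R ⧸ Ideal.span {x})) [hP : P.IsPrime] {n : ℕ} (hn : P.height = n) :
    ((n + 1 : ℕ) : ℕ∞) ≤ (P.comap (Ideal.Quotient.mk (Ideal.span {x}))).height := by
  have h1 : Order.height (⟨P, hP⟩ : PrimeSpectrum (R ⧸ Ideal.span {x})) = n := by
    rw [← PrimeSpectrum.height_eq_orderHeight]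
    exact hn
  obtain ⟨s, hs1, hs2⟩ := Order.exists_series_of_height_eq_coe _ h1
  have hmono := RingHom.strictMono_comap_of_surjective
    (Ideal.Quotient.mk_surjective (I := Ideal.span {x}))
  let s2 := s.map _ hmono
  have hbot : (⊥ : PrimeSpectrum R) < s2.head := by
    refine bot_lt_iff_ne_bot.2 fun h => ?_
    have h2 : x ∈ s2.head.asIdeal := by
      show (Ideal.Quotient.mk (Ideal.span {x})) x ∈ (s.head).asIdeal
      rw [Ideal.Quotient.eq_zero_iff_mem.2 (Ideal.mem_span_singleton_self x)]
      exact zero_mem _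
    rw [h] at h2
    exact hx h2
  let s3 := s2.cons ⊥ hbot
  have h3 := Order.length_le_height_last (p := s3)
  have h4 : s3.length = n + 1 := by
    show (s2.cons ⊥ hbot).length = n + 1
    rw [RelSeries.cons_length]
    show s.length + 1 = n + 1
    rw [hs2]
  have h5 : s3.last = ⟨P.comap (Ideal.Quotient.mk (Ideal.span {x})), inferInstance⟩ := by
    show (s2.cons ⊥ hbot).last = _
    rw [RelSeries.last_cons]
    show PrimeSpectrum.comap _ s.last = _
    rw [hs1]
    rfl
  rw [h4, h5, ← PrimeSpectrum.height_eq_orderHeight] at h3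
  exact h3

theorem reg_dvr (n : ℕ) : ∀ (R : Type u) [CommRing R] [IsRegularLocalRing R],
    ringKrullDim R = (n + 1 : ℕ) →
    ∃ (P : Ideal R) (_ : P.IsPrime), P.height = n ∧ IsDiscreteValuationRing (R ⧸ P) := by
  induction n with
  | zero =>
    intro R _ _ hn
    have hD : IsDomain R := reg_domain _ R hn
    refine ⟨⊥, Ideal.isPrime_bot, ?_, ?_⟩
    · rw [Ideal.height_bot]; rfl
    · have hf : Module.finrank (ResidueField R) (CotangentSpace R) = 1 := by
        have h1 := (IsRegularLocalRing.iff_finrank_cotangentSpace (R := R)).1 inferInstance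
        rw [hn] at h1
        exact_mod_cast h1
      have h2 : IsDiscreteValuationRing R := finrank_CotangentSpace_eq_one_iff.1 hf
      exact IsDiscreteValuationRing.RingEquivClass.isDiscreteValuationRing (RingEquiv.quotientBot R).symm
  | succ n ih =>
    intro R _ _ hn
    have hD : IsDomain R := reg_domain _ R hn
    obtain ⟨x, hx, hx2, -⟩ := reg_exists R hn
    have hx0 : x ≠ 0 := by
      rintro rfl
      exact hx2 (zero_mem _)
    obtain ⟨h1, h2⟩ := reg_quot R hx hx2 hn
    obtain ⟨P, hP, hPh, hPD⟩ := ih _ h2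
    obtain ⟨Q, hQ⟩ : ∃ Q : Ideal R, Q = P.comap (Ideal.Quotient.mk (Ideal.span {x})) := ⟨_, rfl⟩
    have hQP : Q.IsPrime := by
      rw [hQ]; infer_instance
    refine ⟨Q, hQP, ?_, ?_⟩
    · refine le_antisymm ?_ ?_
      · have hxQ : x ∈ Q := by
          rw [hQ, Ideal.mem_comap,
            Ideal.Quotient.eq_zero_iff_mem.2 (Ideal.mem_span_singleton_self x)]
          exact zero_mem _
        refine (Ideal.height_le_height_add_one_of_mem hxQ).trans ?_
        rw [hQ, Ideal.map_comap_of_surjective _ Ideal.Quotient.mk_surjective, hPh]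
        norm_cast
      · rw [hQ]
        exact height_comap_add_one R hx0 P hPh
    · let φ : R →+* (R ⧸ Ideal.span {x}) ⧸ P :=
        (Ideal.Quotient.mk P).comp (Ideal.Quotient.mk (Ideal.span {x}))
      have hφ : Function.Surjective φ :=
        Ideal.Quotient.mk_surjective.comp Ideal.Quotient.mk_surjective
      have hker : RingHom.ker φ = Q := by
        rw [hQ]
        ext r
        rw [RingHom.mem_ker, Ideal.mem_comap]
        exact Ideal.Quotient.eq_zero_iff_mem
      have e : (R ⧸ Ideal.span {x}) ⧸ P ≃+* R ⧸ Q :=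
        ((Ideal.quotEquivOfEq hker.symm).trans (RingHom.quotientKerEquivOfSurjective hφ)).symm
      exact IsDiscreteValuationRing.RingEquivClass.isDiscreteValuationRing e

end Pool.Agent.H19.KEW
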