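import Pool.Agent.H19.KEW.Reg3

/-!
# Smooth algebras over regular rings are regular (for project KEW)
-/

namespace Pool.Agent.H19.KEW

open IsLocalRing

universe u

theorem reg_smooth (P B : Type u) [CommRing P] [IsRegularRing P] [CommRing B] (g : P →+* B)
    (hg : g.Smooth) (Q : Ideal B) [hQ : Q.IsPrime] :
    IsRegularLocalRing (Localization.AtPrime Q) := by
  rw [RingHom.smooth_iff_locally_isStandardSmooth] at hg
  obtain ⟨s, hs, h⟩ := hg
  obtain ⟨t, hts, htQ⟩ : ∃ t ∈ s, t ∉ Q := by
    by_contra hcon
    push Not at hcon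
    exact hQ.ne_top (top_le_iff.1 (hs ▸ Ideal.span_le.2 hcon))
  obtain ⟨n, φ, -, hφ⟩ := (h t hts).exists_etale_mvPolynomial
  let := φ.toAlgebra
  have : Algebra.Etale (MvPolynomial (Fin n) P) (Localization.Away t) := hφ
  obtain ⟨Q', hQ'⟩ : ∃ Q' : Ideal (Localization.Away t),
      Q' = Q.map (algebraMap B (Localization.Away t)) := ⟨_, rfl⟩
  have hdis : Disjoint (Submonoid.powers t : Set B) (Q : Set B) := by
    rw [Set.disjoint_left]
    rintro _ ⟨k, rfl⟩ hk
    exact htQ (hQ.mem_of_pow_mem k hk)
  have hp' : Q'.IsPrime := by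
    rw [hQ']
    exact IsLocalization.isPrime_of_isPrime_disjoint (Submonoid.powers t) _ _ hQ hdis
  have hcomap : Q'.under B = Q := by
    rw [hQ']
    exact IsLocalization.under_map_of_isPrime_disjoint (Submonoid.powers t) _ hQ hdis
  have hreg := reg_etale (MvPolynomial (Fin n) P) (Localization.Away t) Q'
  have hloc : IsLocalization.AtPrime (Localization.AtPrime Q') Q := by
    have := IsLocalization.isLocalization_isLocalization_atPrime_isLocalization
      (Submonoid.powers t) (Localization.AtPrime Q') Q'
    have h3 : Q.primeCompl = (Ideal.comap (algebraMap B (Localization.Away t)) Q').primeCompl := by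
      ext b
      show b ∉ Q ↔ b ∉ Ideal.comap (algebraMap B (Localization.Away t)) Q'
      rw [← Ideal.under_def, hcomap]
    show IsLocalization Q.primeCompl (Localization.AtPrime Q')
    rw [h3]
    exact this
  exact IsRegularLocalRing.of_ringEquiv (IsLocalization.algEquiv Q.primeCompl
    (Localization.AtPrime Q') (Localization.AtPrime Q)).toRingEquiv

end Pool.Agent.H19.KEW
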