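import Pool.Agent.H15.KEW.Tool
import Pool.Agent.H19.KEW.Reg2
import Pool.Agent.H19.KEW.Reg4

/-!
# Points of smooth schemes over a discrete valuation ring: chains with regular quotients
-/

namespace Pool.Agent.H19.KEW

open AlgebraicGeometry CategoryTheory Pool.Agent.H12.KG Pool.Agent.H15.KEW IsLocalRing

universe u

theorem stalk_regular {A : Type u} [CommRing A] [IsDomain A] [IsDiscreteValuationRing A]
    {X : Scheme.{u}} (f : X ⟶ Spec (CommRingCat.of A)) [Smooth f] (x : X) :
    IsRegularLocalRing (X.presheaf.stalk x) := by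
  obtain ⟨V, hV, hxV, -⟩ := exists_isAffineOpen_mem_and_subset (X := X) (U := ⊤) (x := x) trivial
  have hregA : IsRegularRing A := inferInstance
  have hreg : IsRegularRing Γ(Spec (CommRingCat.of A), ⊤) :=
    IsRegularRing.of_ringEquiv (R := A)
      (Scheme.ΓSpecIso (CommRingCat.of A)).symm.commRingCatIsoToRingEquiv
  have hs : (f.appLE ⊤ V le_top).hom.Smooth := f.smooth_appLE (isAffineOpen_top _) hV _
  have h1 := reg_smooth _ _ _ hs (hV.primeIdealOf ⟨x, hxV⟩).asIdeal
  have := hV.isLocalization_stalk ⟨x, hxV⟩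
  let _ := TopCat.Presheaf.algebra_section_stalk X.presheaf ⟨x, hxV⟩
  exact IsRegularLocalRing.of_ringEquiv
    (IsLocalization.algEquiv (hV.primeIdealOf ⟨x, hxV⟩).asIdeal.primeCompl
      (Localization.AtPrime (hV.primeIdealOf ⟨x, hxV⟩).asIdeal) (X.presheaf.stalk x)).toRingEquiv

variable {X : Scheme.{u}}

theorem coheight_prm {w x : X} (h : w ⤳ x) : Order.coheight w = (prm h).asIdeal.height := by
  choose g hg1 hg2 using (fun P : PrimeSpectrum (X.presheaf.stalk x) => exists_prm P)
  let φ : (PrimeSpectrum (X.presheaf.stalk x))ᵒᵈ → X := fun P => g (OrderDual.ofDual P)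
  have hle : ∀ P Q, φ P ≤ φ Q ↔ P ≤ Q := by
    intro P Q
    rw [Scheme.le_iff_specializes]
    refine (prm_le_iff (hg1 _) (hg1 _)).symm.trans ?_
    rw [hg2, hg2]
    rfl
  have hφ : StrictMono φ := by
    intro P Q hPQ
    rw [lt_iff_le_not_ge] at hPQ ⊢
    exact ⟨(hle P Q).2 hPQ.1, fun h => hPQ.2 ((hle Q P).1 h)⟩
  have h3 := Order.coheight_eq_of_strictMono φ hφ (by
    intro P y hy
    have hyx : y ⤳ x := (Scheme.le_iff_specializes.1 hy.le).trans (hg1 _)
    have hgy : φ (OrderDual.toDual (prm hyx)) = y := prm_inj (hg1 _) hyx (hg2 _)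
    refine ⟨OrderDual.toDual (prm hyx), ?_, hgy⟩
    rw [← hgy, lt_iff_le_not_ge] at hy
    rw [lt_iff_le_not_ge]
    exact ⟨(hle _ _).1 hy.1, fun h => hy.2 ((hle _ _).2 h)⟩) (OrderDual.toDual (prm h))
  have h5 : φ (OrderDual.toDual (prm h)) = w := prm_inj (hg1 _) h (hg2 _)
  rw [h5] at h3
  rw [← h3, PrimeSpectrum.height_eq_orderHeight]
  rfl

/-- The range of `rho` is a discrete valuation ring if the quotient by the prime is one. -/
theorem range_dvr {w x : X} (h : w ⤳ x) {P : Ideal (X.presheaf.stalk x)} (hP : P.IsPrime)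
    (hw : (prm h).asIdeal = P) (hD : IsDiscreteValuationRing (X.presheaf.stalk x ⧸ P)) :
    IsDiscreteValuationRing (rho h).range := by
  have hker : RingHom.ker (rho h) = P := hw
  have e : (X.presheaf.stalk x ⧸ P) ≃+* (rho h).range :=
    (Ideal.quotEquivOfEq hker.symm).trans (RingHom.quotientKerEquivRange (rho h))
  exact IsDiscreteValuationRing.RingEquivClass.isDiscreteValuationRing e

/-- DVRCHAIN: on a smooth scheme over a discrete valuation ring every point `x` of codimension
`j + 1` has a generisation `w` of codimension `j` such that the local ring at `x` of the closure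
of `w` is a discrete valuation ring. -/
theorem dvr_chain {A : Type u} [CommRing A] [IsDomain A] [IsDiscreteValuationRing A]
    (f : X ⟶ Spec (CommRingCat.of A)) [Smooth f] (x : X) (j : ℕ)
    (hx : Order.coheight x = (j + 1 : ℕ)) :
    ∃ (w : X) (h : w ⤳ x), Order.coheight w = j ∧ IsDiscreteValuationRing (rho h).range := by
  have hreg := stalk_regular f x
  have hdim : ringKrullDim (X.presheaf.stalk x) = (j + 1 : ℕ) := by
    rw [ringKrullDim_stalk_eq_coheight, hx]
    rfl
  obtain ⟨P, hP, hPh, hPD⟩ := reg_dvr j _ hdim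
  obtain ⟨w, h, hw⟩ := exists_prm (⟨P, hP⟩ : PrimeSpectrum (X.presheaf.stalk x))
  have hw' : (prm h).asIdeal = P := congrArg PrimeSpectrum.asIdeal hw
  refine ⟨w, h, ?_, range_dvr h hP hw' hPD⟩
  rw [coheight_prm h, hw', hPh]

end Pool.Agent.H19.KEW
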