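import Mathlib

/-!
# Regular local rings (for project KEW): quotients, domains, one-dimensional quotients
-/

namespace Pool.Agent.H19.KEW

open IsLocalRing

universe u

theorem reg_span (R : Type u) [CommRing R] [IsRegularLocalRing R] {x : R}
    (hx : x ∈ maximalIdeal R) (hx2 : x ∉ maximalIdeal R ^ 2) {n : ℕ}
    (hn : ringKrullDim R = (n + 1 : ℕ)) :
    ∃ t : Set R, t.Finite ∧ t.ncard ≤ n ∧ maximalIdeal R = Ideal.span (insert x t) := by
  classical
  have hfr : Module.finrank (ResidueField R) (CotangentSpace R) = n + 1 := by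
    have h1 := (IsRegularLocalRing.iff_finrank_cotangentSpace (R := R)).1 inferInstance
    rw [hn] at h1
    exact_mod_cast h1
  obtain ⟨v, hv⟩ : ∃ v : CotangentSpace R, v = (maximalIdeal R).toCotangent ⟨x, hx⟩ := ⟨_, rfl⟩
  have hv0 : v ≠ 0 := by
    intro h
    exact hx2 (((maximalIdeal R).toCotangent_eq_zero ⟨x, hx⟩).1 (hv ▸ h))
  have hli : LinearIndepOn (ResidueField R) id ({v} : Set (CotangentSpace R)) :=
    LinearIndepOn.singleton (R := ResidueField R) (v := id) hv0
  obtain ⟨S, hS⟩ : ∃ S : Set (CotangentSpace R), S = hli.extend (Set.subset_univ _) := ⟨_, rfl⟩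
  have hvS : v ∈ S := hS ▸ Module.Basis.subset_extend hli (Set.mem_singleton v)
  have hSfin : S.Finite := by
    have := Module.Finite.finite_basis (Module.Basis.extend hli)
    rw [hS]
    exact Set.toFinite _
  have hcard : S.ncard = n + 1 := by
    rw [← hfr, Module.finrank_eq_nat_card_basis (Module.Basis.extend hli), hS]
    rfl
  have hspan : Submodule.span (ResidueField R) S = ⊤ := by
    rw [hS, ← Module.Basis.range_extend hli]
    exact (Module.Basis.extend hli).span_eq
  choose g hg using (maximalIdeal R).toCotangent_surjective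
  obtain ⟨T, hT⟩ : ∃ T : Set (maximalIdeal R), T = insert ⟨x, hx⟩ (g '' (S \ {v})) := ⟨_, rfl⟩
  have hTS : (maximalIdeal R).toCotangent '' T = S := by
    rw [hT, Set.image_insert_eq, Set.image_image, ← hv]
    simp only [hg, Set.image_id']
    exact Set.insert_sdiff_self_of_mem hvS
  have h2 := (CotangentSpace.span_image_eq_top_iff (R := R) (s := T)).1 (by rw [hTS]; exact hspan)
  refine ⟨(fun w => (g w : R)) '' (S \ {v}), (hSfin.sdiff).image _, ?_, ?_⟩
  · refine (Set.ncard_image_le hSfin.sdiff).trans ?_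
    rw [Set.ncard_sdiff_singleton_of_mem hvS, hcard]
    omega
  · have h3 := congrArg (Submodule.map (maximalIdeal R).subtype) h2
    rw [Submodule.map_span, Submodule.map_top, Submodule.range_subtype, hT,
      Set.image_insert_eq, Set.image_image] at h3
    exact h3.symm

theorem reg_quot (R : Type u) [CommRing R] [IsRegularLocalRing R] {x : R}
    (hx : x ∈ maximalIdeal R) (hx2 : x ∉ maximalIdeal R ^ 2) {n : ℕ}
    (hn : ringKrullDim R = (n + 1 : ℕ)) :
    IsRegularLocalRing (R ⧸ Ideal.span {x}) ∧ ringKrullDim (R ⧸ Ideal.span {x}) = n := by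
  have hle : Ideal.span {x} ≤ maximalIdeal R := by
    rw [Ideal.span_le, Set.singleton_subset_iff]
    exact hx
  have hnt : Nontrivial (R ⧸ Ideal.span {x}) :=
    Ideal.Quotient.nontrivial_iff.2 fun h => (maximalIdeal.isMaximal R).ne_top (top_le_iff.1 (h ▸ hle))
  have hloc : IsLocalRing (R ⧸ Ideal.span {x}) :=
    IsLocalRing.of_surjective' (Ideal.Quotient.mk (Ideal.span {x})) Ideal.Quotient.mk_surjective
  obtain ⟨t, ht, htn, hm⟩ := reg_span R hx hx2 hn
  have hmax : maximalIdeal (R ⧸ Ideal.span {x})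
      = Ideal.span ((Ideal.Quotient.mk (Ideal.span {x})) '' t) := by
    rw [← map_maximalIdeal_of_surjective (Ideal.Quotient.mk (Ideal.span {x}))
      Ideal.Quotient.mk_surjective, hm, Ideal.map_span, Set.image_insert_eq]
    have h0 : (Ideal.Quotient.mk (Ideal.span {x})) x = 0 :=
      Ideal.Quotient.eq_zero_iff_mem.2 (Ideal.mem_span_singleton_self x)
    rw [h0, Ideal.span_insert, Ideal.span_singleton_zero, bot_sup_eq]
  have h1 : (maximalIdeal (R ⧸ Ideal.span {x})).spanFinrank ≤ n := by
    rw [hmax]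
    exact (Submodule.spanFinrank_span_le_ncard_of_finite (ht.image _)).trans
      ((Set.ncard_image_le ht).trans htn)
  have h2 : ringKrullDim (R ⧸ Ideal.span {x}) ≤ (n : ℕ) :=
    (ringKrullDim_le_spanFinrank_maximalIdeal (R ⧸ Ideal.span {x})).trans (by exact_mod_cast h1)
  have h3 : ((n + 1 : ℕ) : WithBot ℕ∞) ≤ ringKrullDim (R ⧸ Ideal.span {x}) + 1 := by
    rw [← hn, ← maximalIdeal_height_eq_ringKrullDim]
    exact Ideal.height_le_ringKrullDim_quotient_add_one hx
  have h4 : ringKrullDim (R ⧸ Ideal.span {x}) = n := by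
    refine le_antisymm h2 ?_
    obtain ⟨k, hk⟩ : ∃ k : ℕ∞, ringKrullDim (R ⧸ Ideal.span {x}) = k := ⟨_,
      (WithBot.coe_unbot _ (ringKrullDim_ne_bot (R := R ⧸ Ideal.span {x}))).symm⟩
    rw [hk] at h3 ⊢
    have h5 : ((n + 1 : ℕ) : ℕ∞) ≤ k + 1 := by exact_mod_cast h3
    have h6 : ((n : ℕ) : ℕ∞) ≤ k := by
      rw [Nat.cast_add, Nat.cast_one] at h5
      exact (WithTop.add_le_add_iff_right (by exact ENat.one_ne_top)).1 h5
    exact_mod_cast h6
  refine ⟨IsRegularLocalRing.of_spanFinrank_maximalIdeal_le _ ?_, h4⟩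
  rw [h4]
  exact_mod_cast h1

/-- An element of `m` outside `m ^ 2` and outside all minimal primes. -/
theorem reg_exists (R : Type u) [CommRing R] [IsRegularLocalRing R] {n : ℕ}
    (hn : ringKrullDim R = (n + 1 : ℕ)) :
    ∃ x ∈ maximalIdeal R, x ∉ maximalIdeal R ^ 2 ∧ ∀ p ∈ minimalPrimes R, x ∉ p := by
  classical
  by_contra hcon
  push Not at hcon
  have hfin : (minimalPrimes R).Finite := minimalPrimes.finite_of_isNoetherianRing R
  have h1 := (Ideal.subset_union_prime (s := insert (maximalIdeal R ^ 2) hfin.toFinset)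
    (f := id) (maximalIdeal R ^ 2) (maximalIdeal R ^ 2) (by
      intro p hp hp1 _
      rcases Finset.mem_insert.1 hp with h | h
      · exact absurd h hp1
      · exact Ideal.IsMinimalPrime.isPrime (hfin.mem_toFinset.1 h)) (I := maximalIdeal R)).1 (by
      intro x hx
      simp only [id, Finset.coe_insert, Set.Finite.coe_toFinset, Set.mem_iUnion, exists_prop]
      by_cases hx2 : x ∈ maximalIdeal R ^ 2
      · exact ⟨_, Set.mem_insert _ _, hx2⟩
      · obtain ⟨p, hp, hxp⟩ := hcon x hx hx2
        exact ⟨p, Set.mem_insert_of_mem _ hp, hxp⟩)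
  obtain ⟨p, hp, hmp⟩ := h1
  rcases Finset.mem_insert.1 hp with h | h
  · rw [h] at hmp
    have hm0 : maximalIdeal R = ⊥ := by
      refine Submodule.eq_bot_of_le_smul_of_le_jacobson_bot (maximalIdeal R) (maximalIdeal R)
        (maximalIdeal R).fg_of_isNoetherianRing ?_ (IsLocalRing.maximalIdeal_le_jacobson _)
      rw [smul_eq_mul, ← pow_two]
      exact hmp
    have h2 := IsRegularLocalRing.spanFinrank_maximalIdeal (R := R)
    rw [hn, hm0, Submodule.spanFinrank_bot] at h2
    have h3 : (0 : ℕ) = n + 1 := by exact_mod_cast h2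
    omega
  · have hpm : p ∈ minimalPrimes R := hfin.mem_toFinset.1 h
    have hpp : p.IsPrime := Ideal.IsMinimalPrime.isPrime hpm
    have hpe : p = maximalIdeal R := le_antisymm (IsLocalRing.le_maximalIdeal hpp.ne_top) hmp
    have h2 : p.height = 0 := Ideal.height_eq_zero_iff.2 hpm
    rw [hpe] at h2
    have h3 := maximalIdeal_height_eq_ringKrullDim (R := R)
    rw [hn, h2] at h3
    have h4 : (0 : ℕ) = n + 1 := by exact_mod_cast h3
    omega

/-- Regular local rings are domains. -/
theorem reg_domain (n : ℕ) : ∀ (R : Type u) [CommRing R] [IsRegularLocalRing R],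
    ringKrullDim R = (n : ℕ) → IsDomain R := by
  induction n with
  | zero =>
    intro R _ _ hn
    have h2 := IsRegularLocalRing.spanFinrank_maximalIdeal (R := R)
    rw [hn] at h2
    have h3 : (maximalIdeal R).spanFinrank = 0 := by exact_mod_cast h2
    have h4 := (Submodule.spanFinrank_eq_zero_iff_eq_bot
      (maximalIdeal R).fg_of_isNoetherianRing).1 h3
    exact (IsLocalRing.isField_iff_maximalIdeal_eq.2 h4).isDomain
  | succ n ih =>
    intro R _ _ hn
    obtain ⟨x, hx, hx2, hxp⟩ := reg_exists R hn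
    obtain ⟨h1, h2⟩ := reg_quot R hx hx2 hn
    have h3 : IsDomain (R ⧸ Ideal.span {x}) := ih _ h2
    have h4 : (Ideal.span {x}).IsPrime := (Ideal.Quotient.isDomain_iff_prime _).1 h3
    obtain ⟨p, hp, hpx⟩ := Ideal.exists_minimalPrimes_le (bot_le : (⊥ : Ideal R) ≤ Ideal.span {x})
    have hpp : p.IsPrime := Ideal.IsMinimalPrime.isPrime hp
    have hxnp : x ∉ p := hxp p hp
    have h5 : p ≤ Ideal.span {x} * p := by
      intro a ha
      obtain ⟨b, rfl⟩ := Ideal.mem_span_singleton.1 (hpx ha)
      exact Ideal.mul_mem_mul (Ideal.mem_span_singleton_self x)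
        ((hpp.mem_or_mem ha).resolve_left hxnp)
    have h6 : p = ⊥ := by
      refine Submodule.eq_bot_of_le_smul_of_le_jacobson_bot (Ideal.span {x}) p
        p.fg_of_isNoetherianRing h5 ?_
      refine le_trans ?_ (IsLocalRing.maximalIdeal_le_jacobson _)
      rw [Ideal.span_le, Set.singleton_subset_iff]
      exact hx
    rw [h6] at hpp
    exact (IsDomain.of_bot_isPrime R)

end Pool.Agent.H19.KEW
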