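import Mathlib

/-!
# Etale algebras over regular rings are regular (for project KEW)
-/

namespace Pool.Agent.H19.KEW

open IsLocalRing

universe u

theorem reg_etale (P B : Type u) [CommRing P] [IsRegularRing P] [CommRing B] [Algebra P B]
    [Algebra.Etale P B] (Q : Ideal B) [Q.IsPrime] :
    IsRegularLocalRing (Localization.AtPrime Q) := by
  have hNB : IsNoetherianRing B := Algebra.FiniteType.isNoetherianRing P B
  have hEF : Algebra.EssFiniteType P B := inferInstance
  obtain ⟨p, hp⟩ : ∃ p : Ideal P, p = Q.under P := ⟨_, rfl⟩
  have hpp : p.IsPrime := by rw [hp]; infer_instance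
  have hlo : Q.LiesOver p := ⟨hp⟩
  letI := Localization.AtPrime.algebraOfLiesOver p Q
  have hun : Algebra.IsUnramifiedAt P Q := inferInstance
  have hmap := ((Algebra.isUnramifiedAt_iff_map_eq P p Q).1 hun).2
  have hmap2 : (maximalIdeal (Localization.AtPrime p)).map
      (algebraMap (Localization.AtPrime p) (Localization.AtPrime Q))
      = maximalIdeal (Localization.AtPrime Q) := by
    rw [← hmap, ← Localization.AtPrime.map_eq_maximalIdeal, Ideal.map_map,
      ← IsScalarTower.algebraMap_eq]
  have hht : p.height ≤ Q.height := by
    rw [Ideal.height_eq_height_add_of_liesOver_of_hasGoingDown p Q]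
    exact le_self_add
  have hreg : IsRegularLocalRing (Localization.AtPrime p) := inferInstance
  apply IsRegularLocalRing.of_spanFinrank_maximalIdeal_le
  have h1 : (maximalIdeal (Localization.AtPrime Q)).spanFinrank
      ≤ (maximalIdeal (Localization.AtPrime p)).spanFinrank := by
    rw [← hmap2]
    exact Ideal.spanFinrank_map_le_of_fg _ (maximalIdeal _).fg_of_isNoetherianRing
  have h2 := IsRegularLocalRing.spanFinrank_maximalIdeal (R := Localization.AtPrime p)
  have h3 : ringKrullDim (Localization.AtPrime p) = p.height :=
    IsLocalization.AtPrime.ringKrullDim_eq_height p (Localization.AtPrime p)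
  have h4 : ringKrullDim (Localization.AtPrime Q) = Q.height :=
    IsLocalization.AtPrime.ringKrullDim_eq_height Q (Localization.AtPrime Q)
  rw [h4]
  calc ((maximalIdeal (Localization.AtPrime Q)).spanFinrank : WithBot ℕ∞)
      ≤ ((maximalIdeal (Localization.AtPrime p)).spanFinrank : WithBot ℕ∞) := by exact_mod_cast h1
    _ = p.height := by rw [h2, h3]
    _ ≤ Q.height := by exact_mod_cast hht

end Pool.Agent.H19.KEW
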